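import Pool.Agent.SmH.Final

/-!
# Smoothed number of halving partitions of a point set in 3-space

A configuration of `n` points of `ℝ³` is written as `x : Fin n × Fin 3 → ℝ`; the point with index
`i` has the coordinates `x (i, 0), x (i, 1), x (i, 2)`. `Pool.Agent.SmH.ev u x i` is the value of
the linear form with coefficients `u` at this point, `Pool.Agent.SmH.Sep x A` says that some plane
has the points with index in `A` strictly on one side and all other points strictly on the other
side, `Pool.Agent.SmH.GenPos x` says that no plane contains four of the points, and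
`Pool.Agent.SmH.halvings x` is the number `h(X)` of unordered halving partitions.
-/

open MeasureTheory
open scoped ENNReal

namespace Pool.Agent.Results.MP_f6af21_co.SmoothedHalving

open Pool.Agent.SmH

/-- Let `n ≥ 2` be even, let `p` be any `n` points of the unit cube and `0 < σ ≤ 1`. Perturb all
coordinates independently, the coordinate `p e` being replaced by a random number of
`[p e, p e + σ]` whose law has a density at most `K / σ` (`K = 1` is the uniform law). Then almost
surely the perturbed points are distinct and in general position, and the expected number of their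
halving partitions is at most `384 K² n² / σ`. -/
theorem result (n : ℕ) (hn : Even n) (hn2 : 2 ≤ n)
    (p : Fin n × Fin 3 → ℝ) (hp : ∀ e, p e ∈ Set.Icc (0 : ℝ) 1)
    (σ : ℝ) (hσ : 0 < σ) (hσ1 : σ ≤ 1) (K : ℝ)
    (μ : Fin n × Fin 3 → Measure ℝ) [∀ e, IsProbabilityMeasure (μ e)]
    (hμ : ∀ e, μ e ≤ ENNReal.ofReal (K / σ) • volume.restrict (Set.Icc (p e) (p e + σ))) :
    (∀ᵐ x ∂(Measure.pi μ),
      (∀ e, x e ∈ Set.Icc (p e) (p e + σ)) ∧
      Function.Injective (fun (i : Fin n) (c : Fin 3) => x (i, c)) ∧ GenPos x) ∧
    Measurable (halvings : (Fin n × Fin 3 → ℝ) → ℕ) ∧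
    ∫⁻ x, (halvings x : ℝ≥0∞) ∂(Measure.pi μ) ≤
      ENNReal.ofReal (384 * K ^ 2 * (n : ℝ) ^ 2 / σ) := by
  obtain ⟨k, hk⟩ := hn
  have hat : ∀ e t, μ e {t} = 0 := fun e t => noise_atom μ hμ e t
  refine ⟨?_, measurable_halvings, ?_⟩
  · have h1 := ae_good μ hat
    have h2 := noise_box μ hμ
    have h3 : ∀ᵐ x ∂(Measure.pi μ), ∀ i j : Fin n, i ≠ j → x (i, 0) ≠ x (j, 0) := by
      rw [ae_all_iff]; intro i
      rw [ae_all_iff]; intro j
      by_cases hij : i = j
      · exact Filter.Eventually.of_forall (fun x h => absurd hij h)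
      filter_upwards [ae_ne μ hat (i, 0) (j, 0) (by simp [hij])] with x hx _
      exact hx
    filter_upwards [h1, h2, h3] with x hx1 hx2 hx3
    refine ⟨hx2, ?_, hx1.genPos⟩
    intro i j hij
    by_contra hne
    exact hx3 i j hne (congrFun hij 0)
  · by_cases h4 : 4 ≤ n
    · exact lintegral_halvings μ h4 (k := k) (by omega) p hp K σ hσ hσ1 hμ
    · have hn' : n = 2 := by omega
      subst hn'
      have hK : 1 ≤ K := noise_one_le μ hσ hμ (0, 0)
      have hle : ∀ x : Fin 2 × Fin 3 → ℝ, halvings x ≤ 16 := by
        intro x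
        classical
        unfold halvings
        rw [Set.ncard_eq_toFinset_card']
        refine (Finset.card_le_univ _).trans ?_
        simp
      calc ∫⁻ x, (halvings x : ℝ≥0∞) ∂(Measure.pi μ)
          ≤ ∫⁻ _, (16 : ℝ≥0∞) ∂(Measure.pi μ) := by
            apply lintegral_mono
            intro x
            show (halvings x : ℝ≥0∞) ≤ 16
            exact_mod_cast hle x
        _ = ENNReal.ofReal 16 := by simp
        _ ≤ ENNReal.ofReal (384 * K ^ 2 * ((2 : ℕ) : ℝ) ^ 2 / σ) := by
            apply ENNReal.ofReal_le_ofReal
            rw [le_div_iff₀ hσ]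
            push_cast
            nlinarith

end Pool.Agent.Results.MP_f6af21_co.SmoothedHalving
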