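import Pool.Agent.HP3.Joint
import Pool.Agent.HP3.Moment

/-!
# Halving planes and Tukey depth

A configuration of `n` points of `ℝ³` is written as `x : Fin n × Fin 3 → ℝ`; the point with index
`i` is `pt x i = (x (i, 0), x (i, 1), x (i, 2))`. `Pool.Agent.SmH.GenPos x` says that no plane
contains four of the points, `Pool.Agent.SmH.halvings x` is the number `h(X)` of unordered halving
partitions, and `Pool.Agent.HP3.depth x p` is the Tukey depth of the point `p` in the set: the
least number of points of the set (`p` included) in a closed half space whose boundary plane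
contains `p`.
-/

namespace Pool.Agent.Results.MP_f6af21_co.TukeyDepth

open Pool.Agent.SmH Pool.Agent.HP3

/-- Let `n ≥ 2` be even and let `X` be a set of `n` points of `ℝ³` in general position. For every
subset `N` of `X`,
`h(X) ≤ 8 n ∑_{p ∈ X \ N} (depth(p) + 1) + 434 n² √|N|`;
in particular, if at most `s` points of `X` have a depth greater than `t`, then
`h(X) ≤ 8 (t + 1) n² + 434 n² √s`. On the other hand there is a set `X` with `n` points, all of
depth `1`, and `h(X) ≥ n (n - 2) / 4`. So the maximum of `h(X)` over the sets of `n` points with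
depths at most `t` is of the order of magnitude `n²` for every fixed `t ≥ 1`. -/
theorem result (n : ℕ) (hn : Even n) (hn2 : 2 ≤ n) :
    (∀ x : Fin n × Fin 3 → ℝ, GenPos x → ∀ N : Finset (Fin n), (halvings x : ℝ) ≤
      8 * n * ∑ p ∈ Nᶜ, ((depth x p : ℝ) + 1) + 434 * (n : ℝ) ^ 2 * √(N.card : ℝ)) ∧
    (∀ x : Fin n × Fin 3 → ℝ, GenPos x → ∀ t s : ℕ,
      (Finset.univ.filter fun p : Fin n => t < depth x p).card ≤ s →
      (halvings x : ℝ) ≤ 8 * ((t : ℝ) + 1) * (n : ℝ) ^ 2 + 434 * (n : ℝ) ^ 2 * √(s : ℝ)) ∧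
    ∃ x : Fin n × Fin 3 → ℝ, GenPos x ∧ (∀ p, depth x p = 1) ∧
      n * (n - 2) ≤ 4 * halvings x := by
  refine ⟨fun x hg N => joint hn hn2 hg N, ?_, ?_⟩
  · intro x hg t s hs
    refine (joint hn hn2 hg (Finset.univ.filter fun p : Fin n => t < depth x p)).trans ?_
    apply add_le_add
    · have h1 : ∑ p ∈ (Finset.univ.filter fun p : Fin n => t < depth x p)ᶜ,
          ((depth x p : ℝ) + 1) ≤ ∑ _p : Fin n, ((t : ℝ) + 1) := by
        calc ∑ p ∈ (Finset.univ.filter fun p : Fin n => t < depth x p)ᶜ, ((depth x p : ℝ) + 1)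
            ≤ ∑ _p ∈ (Finset.univ.filter fun p : Fin n => t < depth x p)ᶜ, ((t : ℝ) + 1) := by
              refine Finset.sum_le_sum fun p hp => ?_
              have h2 : depth x p ≤ t := by simpa using hp
              have h3 : (depth x p : ℝ) ≤ t := by exact_mod_cast h2
              linarith
          _ ≤ ∑ _p : Fin n, ((t : ℝ) + 1) :=
              Finset.sum_le_sum_of_subset_of_nonneg (Finset.subset_univ _)
                fun p _ _ => by positivity
      rw [Finset.sum_const, Finset.card_univ, Fintype.card_fin, nsmul_eq_mul] at h1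
      calc 8 * (n : ℝ) * ∑ p ∈ (Finset.univ.filter fun p : Fin n => t < depth x p)ᶜ,
            ((depth x p : ℝ) + 1) ≤ 8 * (n : ℝ) * (n * ((t : ℝ) + 1)) :=
            mul_le_mul_of_nonneg_left h1 (by positivity)
        _ = 8 * ((t : ℝ) + 1) * (n : ℝ) ^ 2 := by ring
    · apply mul_le_mul_of_nonneg_left _ (by positivity)
      exact Real.sqrt_le_sqrt (by exact_mod_cast hs)
  · obtain ⟨k, rfl⟩ := hn
    obtain ⟨l, hl⟩ : ∃ l, l = k + k := ⟨_, rfl⟩
    have h2 : l = 2 * k := by omega
    rw [← hl]
    subst h2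
    refine ⟨mom (2 * k), genPos_mom _, depth_mom _, ?_⟩
    have h1 := halvings_mom k
    calc 2 * k * (2 * k - 2) = 4 * (k * (k - 1)) := by
          rw [show 2 * k - 2 = 2 * (k - 1) by omega]
          ring
      _ ≤ 4 * halvings (mom (2 * k)) := Nat.mul_le_mul_left 4 h1

end Pool.Agent.Results.MP_f6af21_co.TukeyDepth
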